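import Pool.Agent.T44.EX.TrX
import Pool.Agent.T44.EF.CritT
import Pool.Agent.T44.GF.Stm3

/-!
# The criterion for points near a point with few periods
-/

set_option autoImplicit false
set_option linter.unusedSectionVars false

open Matrix

namespace Pool.Agent.T44.EX

open Pool.Agent.T44.EF Pool.Agent.T44.GF Pool.Agent.Y118.HP Pool.Agent.Y123.ST Pool.Agent.TH119.DR Pool.Agent.TH119.MX
  Pool.Agent.TH127.PT

variable {n N : ℕ} {𝒱 : Submodule ℚ ℂ}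

theorem hcod2 (hcd : S_CODIM2) (hn : Even n) (hn4 : 4 ≤ n) {s : ℕ} (hs : s ≤ n - 2)
    (H : Submodule ℂ (Matrix (Fin n) (Fin n) ℂ)) (h1 : ∀ X ∈ H, ∀ Y ∈ H, X * Y - Y * X ∈ H)
    (h2 : ∀ v : Fin (s + 1) → (Fin n → ℂ), ¬ LinearIndependent ℂ (fun i => H.mkQ (EE (v i)))) (v : Fin n → ℂ) :
    EE v ∈ H := by
  refine hcd n hn hn4 H h1 (fun v hv => ?_) v
  exact h2 (fun i => v (Fin.castLE (by omega) i)) (hv.comp (Fin.castLE (by omega)) (Fin.castLE_injective _))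

/-- all homogeneous relations of degree `d` -/
theorem htr_ofX (hcd : S_CODIM2) (hn : Even n) (hn4 : 4 ≤ n) {s : ℕ} (hs : s ≤ n - 2) {d : ℕ}
    {K : Subfield ℂ} (hK : FiniteDimensional ℚ K) {D δ : ℕ} (hKD : Module.finrank ℚ K ≤ D)
    {x : Matrix (Fin n) (Fin n) ℂ} (hxd : IsUnit x.det) (hx𝒱 : ∀ i j, x⁻¹ i j ∈ 𝒱) (h𝒱 : 𝒱.FG) {C : ℕ}
    (hgr : ∀ e, Module.finrank ℚ (𝒱 ^ e : Submodule ℚ ℂ) ≤ C * (e + 1) ^ s) {μ : ℂ} (hμ : μ ≠ 0)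
    (hxJ : x * jm ℂ n * xᵀ = μ • jm ℂ n) {y W c : Fin N → Matrix (Fin n) (Fin n) ℂ} (hy : ∀ l, y l ∈ SpS ℂ n)
    (hG : Gen y δ D) (hW : ∀ l i j, W l i j ∈ K) (hWd : ∀ l, IsUnit (W l).det) (hc : ∀ l, c l = x * y l * W l)
    {T : Set (Matrix (Fin n × Fin N) (Fin n × Fin N) ℂ)} {Q : Fin N → Matrix (Fin n) (Fin n) ℂ}
    (hT : IsSubtorsor K T) (hTb : ∀ y ∈ T, ∃ X mu, y = bd X ∧ (X, mu) ∈ Tor Q) (hcT : bd c ∈ T)
    (hδ : dgr C s (Fintype.card (Fin d → VV n N)) d ≤ δ) : HTr T c d := by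
  have htor : ∀ X : Fin N → Matrix (Fin n) (Fin n) ℂ, bd X ∈ T → ∃ mu, (X, mu) ∈ Tor Q := by
    intro X hX
    obtain ⟨X', mu, h1, h2⟩ := hTb _ hX
    have h3 : X = X' := bd_inj h1
    subst h3
    exact ⟨mu, h2⟩
  intro P hP hv h hh
  obtain ⟨a, ha⟩ := exists_tensor P hP
  have h1 := transferHX (d := d) hn (hcod2 hcd hn hn4 hs) hK hKD hxd hx𝒱 h𝒱 hgr hμ hxJ hy hG hW hWd hc hT
    (fun X hX j => by
      obtain ⟨mu, h1⟩ := htor X hX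
      exact (tor_det hn h1.1 (h1.2 j)).1)
    (fun X Y Z hX hY hZ => by
      obtain ⟨mu, h1⟩ := htor Y hY
      exact bd_tor hn hT h1 hX hY hZ) hcT hδ a (fun X hX => by
        show Fm a _ = 0
        rw [← ha]
        exact hv X hX) h hh
  rw [ha]
  exact h1

theorem crit_few (hcd : S_CODIM2) (hn : Even n) (hn4 : 4 ≤ n) {s : ℕ} (hs : s ≤ n - 2) (C : ℕ) (hN : 0 < N) : ∃ δ : ℕ,
    ∀ (K : Subfield ℂ), FiniteDimensional ℚ K → ∀ D : ℕ, Module.finrank ℚ K ≤ D →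
    ∀ (x : Matrix (Fin n) (Fin n) ℂ), IsUnit x.det → ∀ 𝒱 : Submodule ℚ ℂ, (∀ i j, x⁻¹ i j ∈ 𝒱) → 𝒱.FG →
    (∀ e, Module.finrank ℚ (𝒱 ^ e : Submodule ℚ ℂ) ≤ C * (e + 1) ^ s) →
    ∀ (μ : ℂ), μ ≠ 0 → x * jm ℂ n * xᵀ = μ • jm ℂ n →
    ∀ (y W c : Fin N → Matrix (Fin n) (Fin n) ℂ), (∀ l, y l ∈ SpS ℂ n) → Gen y δ D → (∀ l i j, W l i j ∈ K) →
    (∀ l, IsUnit (W l).det) → (∀ l, c l = x * y l * W l) →
    ∀ (T : Set (Matrix (Fin n × Fin N) (Fin n × Fin N) ℂ)) (Q : Fin N → Matrix (Fin n) (Fin n) ℂ) (nu : ℂ),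
    IsSubtorsor K T → (∀ j a b, Q j a b ∈ K) → (c, nu) ∈ Tor Q → bd c ∈ T → Transcendental ℚ nu →
    ∀ x ∈ Tor Q, bd x.1 ∈ T := by
  obtain ⟨J, hJ⟩ := critT n hn (by omega)
  refine ⟨dgr C s (Fintype.card (Fin 2 → VV n N)) 2 + dgr C s (Fintype.card (Fin (dX J) → VV n N)) (dX J) +
    dgr C s (Fintype.card (Fin (dY J) → VV n N)) (dY J), ?_⟩
  intro K hK D hKD x hxd 𝒱 hx𝒱 h𝒱 hgr μ hμ hxJ y W c hy hG hW hWd hc T Q nu hT hQ hcQ hcT hnu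
  have hKalg : ∀ z ∈ K, IsAlgebraic ℚ z := by
    intro z hz
    have h6 : IsAlgebraic ℚ (⟨z, hz⟩ : K) := Algebra.IsAlgebraic.isAlgebraic _
    exact h6.algebraMap (A := ℂ)
  have hT' : IsSubtorsor K (TT Q T) := inter_sub (tor_sub hn (by omega) hN hQ hcQ) hT
  have hcT' : bd c ∈ TT Q T := ⟨⟨c, nu, rfl, hcQ⟩, hcT⟩
  have h : ∀ d : ℕ, dgr C s (Fintype.card (Fin d → VV n N)) d ≤ dgr C s (Fintype.card (Fin 2 → VV n N)) 2 +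
      dgr C s (Fintype.card (Fin (dX J) → VV n N)) (dX J) +
      dgr C s (Fintype.card (Fin (dY J) → VV n N)) (dY J) → HTr (TT Q T) c d := fun d hd =>
    htr_ofX hcd hn hn4 hs hK hKD hxd hx𝒱 h𝒱 hgr hμ hxJ hy hG hW hWd hc hT' (fun y hy => hy.1) hcT' hd
  exact hJ N K T Q c nu hN hKalg hT hQ hcQ hcT hnu (h 2 (by omega)) (h _ (by omega)) (h _ (by omega))

end Pool.Agent.T44.EX
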