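import Pool.Agent.T44.GF.Gr3
import Pool.Agent.T44.EF.TrH

/-!
# The rank bound for a central fibre with few periods
-/

set_option autoImplicit false
set_option linter.unusedSectionVars false

open Matrix

namespace Pool.Agent.T44.EX

open Pool.Agent.T44.EF Pool.Agent.T44.GF Pool.Agent.Y118.HP Pool.Agent.Y123.ST Pool.Agent.TH119.DR Pool.Agent.TH119.MX

variable {n N d r s : ℕ} {K : Subfield ℂ} {𝒱 : Submodule ℚ ℂ}

theorem rank_boundX (hK : FiniteDimensional ℚ K) {D δ : ℕ} (hKD : Module.finrank ℚ K ≤ D)
    {y : Fin N → Matrix (Fin n) (Fin n) ℂ} (hy : ∀ l, y l ∈ SpS ℂ n) (hG : Gen y δ D)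
    {V0 : Matrix (Fin n) (Fin n) ℂ} (hV0 : ∀ i j, V0 i j ∈ K) {a : Fin r → (Fin d → VV n N) → ℂ}
    (ha : ∀ i J, a i J ∈ K) (hali : LinearIndependent ℂ a)
    (hinj : Function.Injective (rh (d := d) (Gb (fun k => V0 * y k))))
    (h𝒱 : 𝒱.FG) {C e : ℕ} (hgr : ∀ e, Module.finrank ℚ (𝒱 ^ e : Submodule ℚ ℂ) ≤ C * (e + 1) ^ s) {κ : ℂ}
    {ν : (Fin r → Fin d → VV n N) → ℂ} (hν : ∀ t, ν t ∈ VK K 𝒱 e) (hM : ∀ t, mn (Mo V0 a y) t = κ * ν t)
    (hδ : (s + 1) * mg C s e * (r * d) ≤ δ) (l : Fin N)
    (v : Fin (s + 1) → Fin n → ℂ) :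
    ¬ LinearIndependent ℂ (fun i => (Hl (Submodule.span ℂ (Set.range a)) l).mkQ (EE (v i))) := by
  classical
  intro hli
  -- a non zero minor
  obtain ⟨P, -, hP⟩ := Pool.Agent.Y113.GG.exists_minor (fun i => Mo V0 a y i) Set.univ (by
    intro x hx
    have h1 : rh (Gb (fun k => V0 * y k)) (∑ i, x i • a i) = 0 := by
      rw [map_sum]
      funext q
      rw [Finset.sum_apply, Pi.zero_apply, ← hx q (Set.mem_univ _)]
      refine Finset.sum_congr rfl fun i _ => ?_
      rw [map_smul, Pi.smul_apply, smul_eq_mul]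
      rfl
    have h2 := hinj (h1.trans (map_zero _).symm)
    funext i
    exact Fintype.linearIndependent_iff.1 hali x h2 i)
  have hP' : mn (Mo V0 a y) P ≠ 0 := hP
  set M := Mo V0 a y with hMdef
  -- the derivatives
  set M' : Fin (s + 1) → Fin r → (Fin d → VV n N) → ℂ := fun j i q =>
    rh (Gb (fun k => V0 * y k)) (Lt (Gb (Pi.single l (EE (v j)))) (a i)) q with hM'
  have hdM : ∀ j i q, HasDerivAt (fun τ => Mo V0 a (fun k => y k * sg l (TV (v j) τ) k) i q) (M' j i q) 0 :=
    fun j i q => deriv_Mo V0 a y l (v j) i q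
  have hdN : ∀ j t, ∃ x, HasDerivAt (fun τ => mn (Mo V0 a (fun k => y k * sg l (TV (v j) τ) k)) t) x 0 :=
    fun j t => ⟨_, (diff_mn (M := fun τ => Mo V0 a (fun k => y k * sg l (TV (v j) τ) k))
      (fun i q => (hdM j i q).differentiableAt) t).hasDerivAt⟩
  choose Nd hNd using hdN
  have hM0 : ∀ j, Mo V0 a (fun k => y k * sg l (TV (v j) 0) k) = M := fun j => by rw [path_zero]
  -- the differentiated Cramer rule
  have hcr : ∀ j i q, ∑ k, (M' j i (P k) * mn M (Function.update P k q) + M i (P k) * Nd j (Function.update P k q)) =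
      Nd j P * M i q + mn M P * M' j i q := by
    intro j i q
    have h1 := HasDerivAt.fun_sum (u := Finset.univ) fun k _ => (hdM j i (P k)).fun_mul (hNd j (Function.update P k q))
    have h2 := (hNd j P).fun_mul (hdM j i q)
    simp only [cramer_id] at h1
    rw [hM0] at h1 h2
    exact h1.unique h2
  set Λ : Fin (s + 1) → (Fin r × (Fin d → VV n N)) → ℂ := fun j kq =>
    Nd j (Function.update P kq.1 kq.2) * mn M P - mn M (Function.update P kq.1 kq.2) * Nd j P with hΛ
  obtain ⟨J, -, hJ⟩ := Pool.Agent.Y113.GG.exists_minor Λ Set.univ (by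
    intro x hx
    have hx' : ∀ k q, (∑ j, x j * Nd j (Function.update P k q)) * mn M P =
        mn M (Function.update P k q) * ∑ j, x j * Nd j P := by
      intro k q
      have h1 := hx (k, q) (Set.mem_univ _)
      simp only [hΛ, mul_sub, Finset.sum_sub_distrib] at h1
      rw [sub_eq_zero] at h1
      rw [Finset.sum_mul, Finset.mul_sum]
      refine Eq.trans (Finset.sum_congr rfl fun j _ => ?_) (h1.trans (Finset.sum_congr rfl fun j _ => ?_)) <;> ring
    set Mx : Fin r → (Fin d → VV n N) → ℂ := fun i q => ∑ j, x j * M' j i q with hMx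
    have h2 : ∀ i q, Mx i q = ∑ k, (Mx i (P k) / mn M P) * mn M (Function.update P k q) := by
      intro i q
      have h3 : ∑ k, (Mx i (P k) * mn M (Function.update P k q) +
          M i (P k) * ∑ j, x j * Nd j (Function.update P k q)) = (∑ j, x j * Nd j P) * M i q + mn M P * Mx i q := by
        have h4 : ∑ j, x j * ∑ k, (M' j i (P k) * mn M (Function.update P k q) + M i (P k) * Nd j (Function.update P k q)) =
            ∑ j, x j * (Nd j P * M i q + mn M P * M' j i q) := Finset.sum_congr rfl fun j _ => by rw [hcr]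
        have h5 : ∑ j, x j * (Nd j P * M i q + mn M P * M' j i q) = (∑ j, x j * Nd j P) * M i q + mn M P * Mx i q := by
          simp only [hMx, Finset.sum_mul, Finset.mul_sum, ← Finset.sum_add_distrib]
          exact Finset.sum_congr rfl fun j _ => by ring
        rw [← h5, ← h4]
        simp only [hMx, Finset.sum_mul, Finset.mul_sum, ← Finset.sum_add_distrib]
        rw [Finset.sum_comm]
        exact Finset.sum_congr rfl fun j _ => Finset.sum_congr rfl fun k _ => by ring
      have h6 : ∑ k, M i (P k) * ((∑ j, x j * Nd j (Function.update P k q)) * mn M P) =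
          (∑ j, x j * Nd j P) * (mn M P * M i q) := by
        rw [← cramer_id M P i q, Finset.mul_sum]
        refine Finset.sum_congr rfl fun k _ => ?_
        rw [hx']
        ring
      have h7 : mn M P * Mx i q = ∑ k, Mx i (P k) * mn M (Function.update P k q) := by
        have h8 : mn M P * (mn M P * Mx i q) = mn M P * ∑ k, Mx i (P k) * mn M (Function.update P k q) := by
          rw [Finset.sum_add_distrib] at h3
          have h9 : mn M P * ∑ k, M i (P k) * ∑ j, x j * Nd j (Function.update P k q) =
              (∑ j, x j * Nd j P) * (mn M P * M i q) := by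
            rw [← h6, Finset.mul_sum]
            exact Finset.sum_congr rfl fun k _ => by ring
          linear_combination h9 - mn M P * h3
        exact mul_left_cancel₀ hP' h8
      have h10 : Mx i q = (mn M P)⁻¹ * (mn M P * Mx i q) := by
        rw [← mul_assoc, inv_mul_cancel₀ hP', one_mul]
      rw [h10, h7, Finset.mul_sum]
      exact Finset.sum_congr rfl fun k _ => by rw [div_eq_mul_inv]; ring
    have h3 : ∀ i, Lt (Gb (Pi.single l (∑ j, x j • EE (v j)))) (a i) ∈ Submodule.span ℂ (Set.range a) := by
      intro i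
      have h4 : rh (Gb (fun k => V0 * y k)) (Lt (Gb (Pi.single l (∑ j, x j • EE (v j)))) (a i)) =
          rh (Gb (fun k => V0 * y k)) (∑ i', (∑ k, (Mx i (P k) / mn M P) * (M.submatrix id P).adjugate k i') • a i') := by
        funext q
        have h5 : rh (Gb (fun k => V0 * y k)) (Lt (Gb (Pi.single l (∑ j, x j • EE (v j)))) (a i)) q = Mx i q := by
          have h6 : Lt (d := d) (Gb (Pi.single l (∑ j, x j • EE (v j)))) = ∑ j, x j • Lt (Gb (Pi.single l (EE (v j)))) := by
            have h7 : ∀ t : Finset (Fin (s + 1)), Lt (d := d) (Gb (Pi.single l (∑ j ∈ t, x j • EE (v j)))) =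
                ∑ j ∈ t, x j • Lt (Gb (Pi.single l (EE (v j)))) := by
              intro t
              induction t using Finset.induction_on with
              | empty =>
                rw [Finset.sum_empty, Finset.sum_empty, Pi.single_zero]
                have h1 : Gb (0 : Fin N → Matrix (Fin n) (Fin n) ℂ) = 0 := by
                  have := Gb_smul (n := n) (N := N) 0 0
                  rwa [zero_smul, zero_smul] at this
                rw [h1, map_zero]
              | insert j t hj ih =>
                rw [Finset.sum_insert hj, Finset.sum_insert hj, Pi.single_add, Gb_add, map_add, ih, Pi.single_smul,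
                  Gb_smul, map_smul]
            exact h7 Finset.univ
          rw [h6, LinearMap.sum_apply, map_sum, Finset.sum_apply]
          refine Finset.sum_congr rfl fun j _ => ?_
          rw [LinearMap.smul_apply, map_smul, Pi.smul_apply, smul_eq_mul]
        have h6 : rh (Gb (fun k => V0 * y k)) (∑ i', (∑ k, (Mx i (P k) / mn M P) * (M.submatrix id P).adjugate k i') • a i') q =
            ∑ i', (∑ k, (Mx i (P k) / mn M P) * (M.submatrix id P).adjugate k i') * M i' q := by
          rw [map_sum, Finset.sum_apply]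
          refine Finset.sum_congr rfl fun i' _ => ?_
          rw [map_smul, Pi.smul_apply, smul_eq_mul]
          rfl
        rw [h5, h6, h2]
        simp only [cramer_adj, Finset.mul_sum, Finset.sum_mul]
        rw [Finset.sum_comm]
        exact Finset.sum_congr rfl fun i' _ => Finset.sum_congr rfl fun k _ => by ring
      rw [hinj h4]
      exact Submodule.sum_mem _ fun i' _ => Submodule.smul_mem _ _ (Submodule.subset_span ⟨i', rfl⟩)
    have h4 : ∑ j, x j • EE (v j) ∈ Hl (Submodule.span ℂ (Set.range a)) l := by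
      intro u hu
      induction hu using Submodule.span_induction with
      | mem u hu =>
        obtain ⟨i, rfl⟩ := hu
        exact h3 i
      | zero => rw [map_zero]; exact Submodule.zero_mem _
      | add u u' _ _ h h' => rw [map_add]; exact Submodule.add_mem _ h h'
      | smul c u _ h => rw [map_smul]; exact Submodule.smul_mem _ _ h
    have h5 : ∑ j, x j • (Hl (Submodule.span ℂ (Set.range a)) l).mkQ (EE (v j)) = 0 := by
      have h6 := (Submodule.Quotient.mk_eq_zero _).2 h4
      rw [← Submodule.mkQ_apply, map_sum] at h6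
      simpa only [map_smul] using h6
    funext j
    exact Fintype.linearIndependent_iff.1 hli x h5 j)
  have heM : ∀ Y : Fin N → Matrix (Fin n) (Fin n) ℂ, eM (fun i q => MpP V0 (a i) q) (cd Y) = Mo V0 a Y := by
    intro Y
    ext i q
    exact eval_MpP _ _ _ _
  obtain ⟨x, hx0, hx⟩ := rel_vecH (K := K) (y := cd y) (𝒵 := {z | ∃ Y : Fin N → Matrix (Fin n) (Fin n) ℂ,
      (∀ l, Y l ∈ SpS ℂ n) ∧ z = cd Y}) (by
    rintro P hP hd h0 _ ⟨Y, hY, rfl⟩
    exact hG K hK hKD P hP hd h0 Y hY) (MP := fun i q => MpP V0 (a i) q) (fun i q => Bd_MpP hV0 (ha i) q) h𝒱 hgr hν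
    (κ := κ) (by
      intro t
      rw [heM]
      exact hM t) hδ P (by rw [heM]; exact hP') (fun b => Function.update P (J b).1 (J b).2)
  apply hJ
  rw [← Matrix.exists_mulVec_eq_zero_iff]
  refine ⟨x, hx0, ?_⟩
  funext j
  have h1 := hx (fun τ => cd fun k => y k * sg l (TV (v j) τ) k) (by rw [path_zero y l (v j)])
    (fun τ => ⟨_, fun k => SpS_mul (hy k) (sg_mem l (v j) τ k), rfl⟩) (Nd j) (by
      intro t
      simp only [heM]
      exact hNd j t)
  simp only [heM] at h1
  show ∑ b, Λ j (J b) * x b = 0
  rw [← h1]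
  exact Finset.sum_congr rfl fun b _ => by rw [mul_comm]

end Pool.Agent.T44.EX
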