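import Pool.Agent.T44.EX.Rk

/-!
# Homogeneous relations on a subtorsor hold on its symplectic translates, for a central fibre with few periods
-/

set_option autoImplicit false
set_option linter.unusedSectionVars false

open Matrix

namespace Pool.Agent.T44.EX

open Pool.Agent.T44.EF Pool.Agent.T44.GF Pool.Agent.Y118.HP Pool.Agent.Y123.ST Pool.Agent.TH119.DR Pool.Agent.TH119.MX
  Pool.Agent.TH127.PT

variable {n N d s : ℕ} {T : Set (Matrix (Fin n × Fin N) (Fin n × Fin N) ℂ)} {𝒱 : Submodule ℚ ℂ}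

/-- the entries of the action of a matrix with entries in the space -/
theorem rh_VKb {K : Subfield ℂ} {A : Fin N → Matrix (Fin n) (Fin n) ℂ} (hA : ∀ l i j, A l i j ∈ 𝒱)
    {u : (Fin d → VV n N) → ℂ} (hu : ∀ q, u q ∈ K) (q : Fin d → VV n N) : rh (Gb A) u q ∈ VK K 𝒱 d := by
  rw [rh_apply]
  refine Submodule.sum_mem _ fun J _ => ?_
  have h1 : ∏ t, Gb A (q t) (J t) ∈ VK K 𝒱 d := by
    have h2 := VK_prod (K := K) (𝒱 := 𝒱) Finset.univ (e := fun _ : Fin d => 1) (f := fun t => Gb A (q t) (J t))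
      fun t _ => by
        rw [Gb_apply]
        split_ifs
        · exact VK_one (hA _ _ _)
        · exact Submodule.zero_mem _
    simpa using h2
  have h3 := VK_mul (VK_K (𝒱 := 𝒱) (hu J)) h1
  rwa [zero_add] at h3

/-- **Homogeneous relations transfer** -/
theorem transferHX (hn : Even n)
    (hcod : ∀ H : Submodule ℂ (Matrix (Fin n) (Fin n) ℂ), (∀ X ∈ H, ∀ Y ∈ H, X * Y - Y * X ∈ H) →
      (∀ v : Fin (s + 1) → (Fin n → ℂ), ¬ LinearIndependent ℂ (fun i => H.mkQ (EE (v i)))) → ∀ v : Fin n → ℂ, EE v ∈ H)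
    {K : Subfield ℂ} (hK : FiniteDimensional ℚ K) {D δ : ℕ} (hKD : Module.finrank ℚ K ≤ D)
    {x : Matrix (Fin n) (Fin n) ℂ} (hxd : IsUnit x.det) (hx𝒱 : ∀ i j, x⁻¹ i j ∈ 𝒱) (h𝒱 : 𝒱.FG) {C : ℕ}
    (hgr : ∀ e, Module.finrank ℚ (𝒱 ^ e : Submodule ℚ ℂ) ≤ C * (e + 1) ^ s) {μ : ℂ} (hμ : μ ≠ 0)
    (hxJ : x * jm ℂ n * xᵀ = μ • jm ℂ n) {y W c : Fin N → Matrix (Fin n) (Fin n) ℂ} (hy : ∀ l, y l ∈ SpS ℂ n)
    (hG : Gen y δ D) (hW : ∀ l i j, W l i j ∈ K) (hWd : ∀ l, IsUnit (W l).det) (hc : ∀ l, c l = x * y l * W l)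
    (hT : IsSubtorsor K T) (hTdet : ∀ X : Fin N → Matrix (Fin n) (Fin n) ℂ, bd X ∈ T → ∀ j, IsUnit (X j).det)
    (htor : ∀ X Y Z : Fin N → Matrix (Fin n) (Fin n) ℂ, bd X ∈ T → bd Y ∈ T → bd Z ∈ T →
      bd (fun j => X j * (Y j)⁻¹ * Z j) ∈ T) (hcT : bd c ∈ T)
    (hδ : dgr C s (Fintype.card (Fin d → VV n N)) d ≤ δ) :
    ∀ a ∈ ST T d, ∀ h : Fin N → Matrix (Fin n) (Fin n) ℂ, (∀ l, h l ∈ SpS ℂ n) → Fx a (fun l => h l * c l) = 0 := by
  classical
  set r := Module.finrank ℂ (ST T d) with hr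
  have hrle : r ≤ Fintype.card (Fin d → VV n N) := by
    rw [hr, ← Module.finrank_fintype_fun_eq_card ℂ (η := Fin d → VV n N)]
    exact Submodule.finrank_le _
  obtain ⟨b, hbK, hbli, hbspan⟩ := exists_Kbasis (ST_def hT d) hr.symm
  have hcd := hTdet c hcT
  have hcc : (fun l => (c l)⁻¹) * c = 1 := by
    funext l
    exact nonsing_inv_mul _ (hcd l)
  have hcc' : c * (fun l => (c l)⁻¹) = 1 := by
    funext l
    exact mul_nonsing_inv _ (hcd l)
  have hinjc : Function.Injective (rh (d := d) (Gb c)) := rh_inj (A' := Gb (fun l => (c l)⁻¹)) (by rw [Gb_mul, hcc, Gb_one])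
  have hSG : (ST T d).map (rh (Gb c)) = SG T d := by
    apply le_antisymm
    · rintro _ ⟨a, ha, rfl⟩ X Y hX hY
      rw [Fx_rh]
      exact ha _ (htor X Y c hX hY hcT)
    · intro a ha
      refine ⟨rh (Gb (fun l => (c l)⁻¹)) a, ?_, ?_⟩
      · intro X hX
        rw [Fx_rh]
        exact ha X c hX hcT
      · rw [← Module.End.mul_apply, rh_mul, Gb_mul, hcc', Gb_one, rh_one]
        rfl
  have hfin : Module.finrank ℂ (SG T d) = r := by
    rw [← hSG]
    exact (LinearEquiv.finrank_eq (Submodule.equivMapOfInjective _ hinjc (ST T d))).symm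
  obtain ⟨b', hb'K, hb'li, hb'span⟩ := exists_Kbasis (SG_def hT hTdet d) hfin
  -- coefficients
  have hC0 : ∀ i, ∃ C0 : Fin r → ℂ, ∑ k, C0 k • b' k = rh (Gb c) (b i) := by
    intro i
    have h1 : rh (Gb c) (b i) ∈ SG T d := by
      rw [← hSG]
      refine ⟨b i, ?_, rfl⟩
      have : b i ∈ Submodule.span ℂ (Set.range b) := Submodule.subset_span ⟨i, rfl⟩
      rwa [hbspan] at this
    rw [← hb'span] at h1
    exact (Submodule.mem_span_range_iff_exists_fun ℂ).1 h1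
  choose C0 hC0 using hC0
  set a : Fin r → (Fin d → VV n N) → ℂ := fun i => rh (Gb W) (b i) with ha
  have hWW : (fun l => (W l)⁻¹) * W = 1 := by
    funext l
    exact nonsing_inv_mul _ (hWd l)
  have hWW' : ∀ l, W l * (W l)⁻¹ = 1 := fun l => mul_nonsing_inv _ (hWd l)
  have hinjW : Function.Injective (rh (d := d) (Gb W)) := rh_inj (A' := Gb (fun l => (W l)⁻¹)) (by rw [Gb_mul, hWW, Gb_one])
  have haK : ∀ i J, a i J ∈ K := fun i J => rh_mem (Gb_mem hW) (hbK i) J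
  have hali : LinearIndependent ℂ a := hbli.map' (rh (Gb W)) (LinearMap.ker_eq_bot.2 hinjW)
  have hVy : ∀ l, IsUnit (1 * y l).det := fun l => by
    rw [Matrix.one_mul]
    exact sp_det hn (hy l)
  have hinjV : Function.Injective (rh (d := d) (Gb (fun k => 1 * y k))) :=
    rh_inj (A' := Gb (fun k => (1 * y k)⁻¹)) (by
      rw [Gb_mul]
      have : (fun k => (1 * y k)⁻¹) * (fun k => 1 * y k) = (1 : Fin N → Matrix (Fin n) (Fin n) ℂ) := by
        funext l
        exact nonsing_inv_mul _ (hVy l)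
      rw [this, Gb_one])
  set B : Matrix (Fin r) (Fin d → VV n N) ℂ := Matrix.of fun k q => rh (Gb (fun _ => x⁻¹)) (b' k) q with hB
  have hkey : ∀ l, 1 * y l * W l = x⁻¹ * c l := by
    intro l
    rw [hc l, Matrix.one_mul, ← Matrix.mul_assoc, ← Matrix.mul_assoc, nonsing_inv_mul _ hxd, Matrix.one_mul]
  have h1K : ∀ i j, (1 : Matrix (Fin n) (Fin n) ℂ) i j ∈ K := by
    intro i j
    rw [Matrix.one_apply]
    split_ifs
    · exact K.one_mem
    · exact K.zero_mem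
  have hM : ∀ i q, Mo 1 a y i q = ∑ k, C0 i k * B k q * (fun _ => (1 : ℂ)) q := by
    intro i q
    have h1 : Mo 1 a y i q = rh (Gb (fun l => 1 * y l * W l)) (b i) q := by
      unfold Mo
      rw [Matrix.of_apply, ha]
      simp only
      rw [← Module.End.mul_apply, rh_mul, Gb_mul]
      rfl
    have h2 : Gb (fun l => 1 * y l * W l) = Gb (fun _ => x⁻¹) * Gb c := by
      rw [Gb_mul]
      congr 1
      funext l
      exact hkey l
    rw [h1, h2, ← rh_mul, Module.End.mul_apply, ← hC0 i, map_sum, Finset.sum_apply]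
    refine Finset.sum_congr rfl fun k _ => ?_
    rw [map_smul, Pi.smul_apply, smul_eq_mul, mul_one]
    rfl
  have hmn : ∀ t, mn (Mo 1 a y) t = (Matrix.of C0).det * mn B t := by
    intro t
    rw [mn_fac (C := Matrix.of C0) (B := B) (χ := fun _ => 1) hM]
    simp
  have hν : ∀ t, mn B t ∈ VK K 𝒱 (r * d) := by
    intro t
    unfold mn
    exact VK_det fun i j => rh_VKb (fun _ => hx𝒱) (fun q => hb'K i q) _
  have hEE : ∀ l v, EE v ∈ Hl (Submodule.span ℂ (Set.range a)) l := by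
    intro l
    refine hcod _ (fun X hX Y hY => Hl_br hX hY) fun v => ?_
    exact rank_boundX hK hKD hy hG h1K haK hali hinjV h𝒱 hgr hν hmn ((dgr_mono hrle).trans hδ) l v
  have hspan : Submodule.span ℂ (Set.range a) = (ST T d).map (rh (Gb W)) := by
    rw [← hbspan, Submodule.map_span, ← Set.range_comp]
    rfl
  have hstab := fun (g : Fin N → Matrix (Fin n) (Fin n) ℂ) (hg : ∀ l, g l ∈ SpS ℂ n) => stab_all (d := d) hn hEE hg
  intro a0 ha0 h hh
  set g : Fin N → Matrix (Fin n) (Fin n) ℂ := fun l => (x * y l)⁻¹ * h l * (x * y l) with hg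
  have hPJ : ∀ l, (x * y l) * jm ℂ n * (x * y l)ᵀ = μ • jm ℂ n := by
    intro l
    have h1 : y l * jm ℂ n * (y l)ᵀ = jm ℂ n := hy l
    calc (x * y l) * jm ℂ n * (x * y l)ᵀ = x * (y l * jm ℂ n * (y l)ᵀ) * xᵀ := by
          rw [transpose_mul]
          simp only [Matrix.mul_assoc]
      _ = μ • jm ℂ n := by rw [h1, hxJ]
  have hgs : ∀ l, g l ∈ SpS ℂ n := fun l => sp_conj' hn hμ (hPJ l) (hh l)
  have h1 : rh (Gb W) a0 ∈ Submodule.span ℂ (Set.range a) := by
    rw [hspan]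
    exact ⟨a0, ha0, rfl⟩
  have h2 := hstab g hgs _ h1
  rw [hspan] at h2
  obtain ⟨a3, ha3, h3⟩ := h2
  have h4 : Fx (rh (Gb W) a3) (c * fun l => (W l)⁻¹) = Fx (rh (Gb g) (rh (Gb W) a0)) (c * fun l => (W l)⁻¹) := by
    rw [h3]
  rw [Fx_rh, Fx_rh, Fx_rh] at h4
  have h5 : c * (fun l => (W l)⁻¹) * W = c := by
    rw [mul_assoc, hWW, mul_one]
  have h6 : c * (fun l => (W l)⁻¹) * g * W = fun l => h l * c l := by
    funext l
    show c l * (W l)⁻¹ * g l * W l = h l * c l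
    have h7 : c l * (W l)⁻¹ = x * y l := by
      rw [hc l, Matrix.mul_assoc, hWW', Matrix.mul_one]
    have h8 : (x * y l) * (x * y l)⁻¹ = 1 := mul_nonsing_inv _ (tor_det hn hμ (hPJ l)).1
    rw [h7]
    calc x * y l * ((x * y l)⁻¹ * h l * (x * y l)) * W l = ((x * y l) * (x * y l)⁻¹) * h l * (x * y l * W l) := by
          simp only [Matrix.mul_assoc]
      _ = h l * c l := by rw [h8, Matrix.one_mul, hc l]
  rw [h5, h6] at h4
  rw [← h4]
  exact ha3 c hcT

end Pool.Agent.T44.EX
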